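import Mathlib

set_option autoImplicit false

/-!
# The moment exponent of a random matrix product can fail to be analytic at `d` points (`d = 2`)

For `d = 2` we take the measure with two atoms: the unipotent matrix `u = [[1,1],[0,1]]` with mass
`1000/1001` and `b = (1/10) [[2,1],[1,1]]` with mass `1/1001`.  For `t` in `[-3,-2]` the products
which do not contain `b` dominate the integral, so that `k t = log (1000/1001)` there, while
`k 0 = 0` and `k (-10) > 0`.  Hence `k` has a singularity on either side of `-5/2`.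
-/

open MeasureTheory Filter Topology Polynomial
open scoped ENNReal

namespace Pool.Agent.Results.MP_2489e7_pr.TwoSingularPoints

noncomputable section

/-- The Borel σ-algebra of `GL(d, ℝ)`. -/
instance instMeasurableSpaceGL (d : ℕ) : MeasurableSpace (GL (Fin d) ℝ) := borel _

instance instBorelSpaceGL (d : ℕ) : BorelSpace (GL (Fin d) ℝ) := ⟨rfl⟩

open scoped Matrix.Norms.L2Operator in
/-- `|g|`, the operator norm of `g` for the Euclidean norm on `ℝ^d`. -/
def opNorm {d : ℕ} (g : GL (Fin d) ℝ) : ℝ := ‖(g : Matrix (Fin d) (Fin d) ℝ)‖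

/-- The `n`-th convolution power `μ^n`, the law of a product of `n` independent matrices of
law `μ`. -/
def convPow {d : ℕ} (μ : Measure (GL (Fin d) ℝ)) : ℕ → Measure (GL (Fin d) ℝ)
  | 0 => Measure.dirac 1
  | n + 1 => (convPow μ n).mconv μ

/-- `S_μ`, the closed semigroup generated by the support of `μ`. -/
def closedSemigroup {d : ℕ} (μ : Measure (GL (Fin d) ℝ)) : Set (GL (Fin d) ℝ) :=
  closure (Subsemigroup.closure μ.support : Set (GL (Fin d) ℝ))

/-- The `i`-th exterior power of a real vector space. -/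
def ExtPow (V : Type) [AddCommGroup V] [Module ℝ V] (i : ℕ) : Type := ⋀[ℝ]^i V

instance instAddCommGroupExtPow (V : Type) [AddCommGroup V] [Module ℝ V] (i : ℕ) :
    AddCommGroup (ExtPow V i) := inferInstanceAs (AddCommGroup (⋀[ℝ]^i V))

instance instModuleExtPow (V : Type) [AddCommGroup V] [Module ℝ V] (i : ℕ) :
    Module ℝ (ExtPow V i) := inferInstanceAs (Module ℝ (⋀[ℝ]^i V))

instance instFiniteExtPow (V : Type) [AddCommGroup V] [Module ℝ V] [Module.Finite ℝ V] (i : ℕ) :
    Module.Finite ℝ (ExtPow V i) := inferInstanceAs (Module.Finite ℝ (⋀[ℝ]^i V))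

/-- The `i`-th exterior power of a linear map. -/
def extMap {V : Type} [AddCommGroup V] [Module ℝ V] (i : ℕ) (f : V →ₗ[ℝ] V) :
    ExtPow V i →ₗ[ℝ] ExtPow V i := exteriorPower.map i f

/-- The action `g^{∧ i}` of `g` on the `i`-th exterior power of `ℝ^d`. -/
def extAct {d : ℕ} (i : ℕ) (g : GL (Fin d) ℝ) :
    ExtPow (Fin d → ℝ) i →ₗ[ℝ] ExtPow (Fin d → ℝ) i :=
  extMap i (Matrix.toLin' (g : Matrix (Fin d) (Fin d) ℝ))

/-- `f` has a simple eigenvalue (a simple root of the characteristic polynomial) whose modulus is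
strictly larger than that of every other complex eigenvalue. -/
def HasSimpleDominantEigenvalue {V : Type} [AddCommGroup V] [Module ℝ V] [Module.Finite ℝ V]
    (f : V →ₗ[ℝ] V) : Prop :=
  ∃ z : ℂ, (f.charpoly.map (algebraMap ℝ ℂ)).rootMultiplicity z = 1 ∧
    ∀ w : ℂ, (f.charpoly.map (algebraMap ℝ ℂ)).IsRoot w → w ≠ z → ‖w‖ < ‖z‖

/-- Strong irreducibility of a set of linear maps: no finite (nonempty) union of proper nonzero
subspaces is invariant. -/
def NoInvariantUnion {V : Type} [AddCommGroup V] [Module ℝ V] (A : Set (V →ₗ[ℝ] V)) : Prop :=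
  ¬ ∃ s : Finset (Submodule ℝ V), s.Nonempty ∧ (∀ W ∈ s, W ≠ ⊥ ∧ W ≠ ⊤) ∧
    ∀ f ∈ A, ∀ W ∈ s, ∀ v ∈ W, ∃ W' ∈ s, f v ∈ W'

/-- The action of `S_μ` on the `i`-th exterior power is strongly irreducible: no finite (nonempty)
union of proper nonzero subspaces is invariant. -/
def StronglyIrreducible {d : ℕ} (μ : Measure (GL (Fin d) ℝ)) (i : ℕ) : Prop :=
  NoInvariantUnion (extAct i '' closedSemigroup μ)

/-- The action of `S_μ` on the `i`-th exterior power is proximal. -/
def Proximal {d : ℕ} (μ : Measure (GL (Fin d) ℝ)) (i : ℕ) : Prop :=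
  ∃ g ∈ closedSemigroup μ, HasSimpleDominantEigenvalue (extAct i g)

/-- `k` is the moment exponent of `μ`: for every real `t`, `k t` is the limit of
`(1/n) log ∫ |g|^t dμ^n(g)`. -/
def IsMomentExponent {d : ℕ} (μ : Measure (GL (Fin d) ℝ)) (k : ℝ → ℝ) : Prop :=
  ∀ t : ℝ, Tendsto (fun n : ℕ => 1 / (n : ℝ) * Real.log (∫ g, opNorm g ^ t ∂(convPow μ n)))
    atTop (𝓝 (k t))

/-! ### Instances -/

instance (d : ℕ) : SecondCountableTopology (Matrix (Fin d) (Fin d) ℝ) :=
  inferInstanceAs (SecondCountableTopology (Fin d → Fin d → ℝ))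

instance (d : ℕ) : SecondCountableTopology (GL (Fin d) ℝ) := by
  have : SecondCountableTopology ((Matrix (Fin d) (Fin d) ℝ)ᵐᵒᵖ) :=
    (MulOpposite.opHomeomorph (M := Matrix (Fin d) (Fin d) ℝ)).symm.isEmbedding.secondCountableTopology
  exact (Units.isEmbedding_embedProduct (M := Matrix (Fin d) (Fin d) ℝ)).secondCountableTopology

/-! ### The two matrices -/

/-- The unipotent matrix. -/
def uM : Matrix (Fin 2) (Fin 2) ℝ := !![1, 1; 0, 1]

/-- The contracted positive matrix. -/
def bM : Matrix (Fin 2) (Fin 2) ℝ := !![1 / 5, 1 / 10; 1 / 10, 1 / 10]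

theorem uM_det : uM.det ≠ 0 := by simp [uM, Matrix.det_fin_two]

theorem bM_det : bM.det ≠ 0 := by simp [bM, Matrix.det_fin_two]; norm_num

/-- The unipotent element. -/
def u : GL (Fin 2) ℝ := Matrix.GeneralLinearGroup.mkOfDetNeZero uM uM_det

/-- The contracted positive element. -/
def b : GL (Fin 2) ℝ := Matrix.GeneralLinearGroup.mkOfDetNeZero bM bM_det

theorem u_val : (u : Matrix (Fin 2) (Fin 2) ℝ) = uM := rfl

theorem b_val : (b : Matrix (Fin 2) (Fin 2) ℝ) = bM := rfl

/-- Mass of `u`. -/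
def p : ℝ := 1000 / 1001

/-- Mass of `b`. -/
def q : ℝ := 1 / 1001

theorem p_pos : 0 < p := by norm_num [p]

theorem q_pos : 0 < q := by norm_num [q]

theorem p_add_q : p + q = 1 := by norm_num [p, q]

theorem p_lt : p < 1 := by norm_num [p]

/-- The measure. -/
def μ₀ : Measure (GL (Fin 2) ℝ) :=
  ENNReal.ofReal p • Measure.dirac u + ENNReal.ofReal q • Measure.dirac b

instance : IsProbabilityMeasure μ₀ := by
  constructor
  simp only [μ₀, Measure.coe_add, Measure.coe_smul, Pi.add_apply, Pi.smul_apply, measure_univ,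
    smul_eq_mul, mul_one]
  rw [← ENNReal.ofReal_add p_pos.le q_pos.le, p_add_q, ENNReal.ofReal_one]

theorem u_mem : u ∈ μ₀.support := by
  rw [Measure.mem_support_iff_forall]
  intro U hU
  have h1 : (Measure.dirac u : Measure (GL (Fin 2) ℝ)) U = 1 := by
    rw [Measure.dirac_apply, Set.indicator_of_mem (mem_of_mem_nhds hU)]; rfl
  simp only [μ₀, Measure.coe_add, Measure.coe_smul, Pi.add_apply, Pi.smul_apply, smul_eq_mul, h1,
    mul_one]
  exact lt_of_lt_of_le (ENNReal.ofReal_pos.2 p_pos) le_self_add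

theorem b_mem : b ∈ μ₀.support := by
  rw [Measure.mem_support_iff_forall]
  intro U hU
  have h1 : (Measure.dirac b : Measure (GL (Fin 2) ℝ)) U = 1 := by
    rw [Measure.dirac_apply, Set.indicator_of_mem (mem_of_mem_nhds hU)]; rfl
  simp only [μ₀, Measure.coe_add, Measure.coe_smul, Pi.add_apply, Pi.smul_apply, smul_eq_mul, h1,
    mul_one]
  exact lt_of_lt_of_le (ENNReal.ofReal_pos.2 q_pos) le_add_self

theorem compact_support : IsCompact μ₀.support := by
  have hfin : ({u, b} : Set (GL (Fin 2) ℝ)).Finite := Set.toFinite _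
  have hsub : μ₀.support ⊆ {u, b} := by
    refine Measure.support_subset_of_isClosed hfin.isClosed ?_
    rw [mem_ae_iff]
    simp only [μ₀, Measure.coe_add, Measure.coe_smul, Pi.add_apply, Pi.smul_apply, smul_eq_mul]
    rw [Measure.dirac_apply, Measure.dirac_apply, Set.indicator_of_notMem (by simp),
      Set.indicator_of_notMem (by simp)]
    simp
  exact hfin.isCompact.of_isClosed_subset Measure.isClosed_support hsub

theorem mem_closedSemigroup {g : GL (Fin 2) ℝ} (hg : g ∈ μ₀.support) :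
    g ∈ closedSemigroup μ₀ :=
  subset_closure (Subsemigroup.subset_closure hg)

/-! ### The integral as a functional -/

/-- `∫ φ dμ^n` as a recursively defined functional. -/
def S : ℕ → (GL (Fin 2) ℝ → ℝ) → ℝ
  | 0, φ => φ 1
  | n + 1, φ => p * S n (fun g => φ (g * u)) + q * S n (fun g => φ (g * b))

instance convPow_fin (n : ℕ) : IsProbabilityMeasure (convPow μ₀ n) := by
  induction n with
  | zero => exact inferInstanceAs (IsProbabilityMeasure (Measure.dirac 1))
  | succ n ih => exact inferInstanceAs (IsProbabilityMeasure ((convPow μ₀ n).mconv μ₀))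

theorem mconv_two (ν : Measure (GL (Fin 2) ℝ)) [IsProbabilityMeasure ν] : ν.mconv μ₀ =
    ENNReal.ofReal p • ν.map (fun g => g * u) + ENNReal.ofReal q • ν.map (fun g => g * b) := by
  rw [μ₀, Measure.mconv_add, Measure.mconv_smul_right, Measure.mconv_smul_right,
    Measure.mconv_dirac, Measure.mconv_dirac]

theorem convPow_succ (n : ℕ) : convPow μ₀ (n + 1) =
    ENNReal.ofReal p • (convPow μ₀ n).map (fun g => g * u) +
      ENNReal.ofReal q • (convPow μ₀ n).map (fun g => g * b) :=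
  mconv_two (convPow μ₀ n)

theorem emb (x : GL (Fin 2) ℝ) : MeasurableEmbedding (fun g : GL (Fin 2) ℝ => g * x) :=
  (Homeomorph.mulRight x).measurableEmbedding

theorem integrable_all (n : ℕ) : ∀ φ : GL (Fin 2) ℝ → ℝ, Integrable φ (convPow μ₀ n) := by
  induction n with
  | zero =>
    intro φ
    exact integrable_dirac (by simp)
  | succ n ih =>
    intro φ
    rw [convPow_succ]
    refine Integrable.add_measure ?_ ?_
    · refine Integrable.smul_measure ?_ (by simp)
      rw [(emb u).integrable_map_iff]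
      exact ih _
    · refine Integrable.smul_measure ?_ (by simp)
      rw [(emb b).integrable_map_iff]
      exact ih _

theorem integral_eq (n : ℕ) : ∀ φ : GL (Fin 2) ℝ → ℝ, ∫ g, φ g ∂(convPow μ₀ n) = S n φ := by
  induction n with
  | zero =>
    intro φ
    change ∫ g, φ g ∂(Measure.dirac 1) = φ 1
    rw [integral_dirac]
  | succ n ih =>
    intro φ
    rw [convPow_succ, integral_add_measure, integral_smul_measure, integral_smul_measure,
      (emb u).integral_map, (emb b).integral_map, ih, ih, ENNReal.toReal_ofReal p_pos.le,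
      ENNReal.toReal_ofReal q_pos.le]
    · rfl
    · refine Integrable.smul_measure ?_ (by simp)
      rw [(emb u).integrable_map_iff]
      exact integrable_all n _
    · refine Integrable.smul_measure ?_ (by simp)
      rw [(emb b).integrable_map_iff]
      exact integrable_all n _

/-! ### Column sums -/

/-- First column sum. -/
def cA (g : GL (Fin 2) ℝ) : ℝ := (g : Matrix (Fin 2) (Fin 2) ℝ) 0 0 + (g : Matrix (Fin 2) (Fin 2) ℝ) 1 0

/-- Second column sum. -/
def cB (g : GL (Fin 2) ℝ) : ℝ := (g : Matrix (Fin 2) (Fin 2) ℝ) 0 1 + (g : Matrix (Fin 2) (Fin 2) ℝ) 1 1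

/-- Nonnegative entries and positive column sums. -/
def Good (g : GL (Fin 2) ℝ) : Prop :=
  (∀ i j, 0 ≤ (g : Matrix (Fin 2) (Fin 2) ℝ) i j) ∧ 0 < cA g ∧ 0 < cB g

theorem good_one : Good 1 := by
  refine ⟨?_, ?_, ?_⟩
  · intro i j
    fin_cases i <;> fin_cases j <;> simp
  · simp [cA]
  · simp [cB]

theorem cA_one : cA 1 = 1 := by simp [cA]

theorem cB_one : cB 1 = 1 := by simp [cB]

theorem cA_u (g : GL (Fin 2) ℝ) : cA (g * u) = cA g := by
  simp [cA, u_val, uM, Matrix.mul_apply, Fin.sum_univ_two]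

theorem cB_u (g : GL (Fin 2) ℝ) : cB (g * u) = cA g + cB g := by
  simp [cA, cB, u_val, uM, Matrix.mul_apply, Fin.sum_univ_two]
  ring

theorem cA_b (g : GL (Fin 2) ℝ) : cA (g * b) = (2 * cA g + cB g) / 10 := by
  simp [cA, cB, b_val, bM, Matrix.mul_apply, Fin.sum_univ_two]
  ring

theorem cB_b (g : GL (Fin 2) ℝ) : cB (g * b) = (cA g + cB g) / 10 := by
  simp [cA, cB, b_val, bM, Matrix.mul_apply, Fin.sum_univ_two]
  ring

theorem Good.mul_u {g : GL (Fin 2) ℝ} (h : Good g) : Good (g * u) := by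
  obtain ⟨h1, h2, h3⟩ := h
  refine ⟨?_, ?_, ?_⟩
  · intro i j
    have e0 := h1 i 0
    have e1 := h1 i 1
    fin_cases j <;> simp [u_val, uM, Matrix.mul_apply, Fin.sum_univ_two] <;> linarith
  · rw [cA_u]; exact h2
  · rw [cB_u]; linarith

theorem Good.mul_b {g : GL (Fin 2) ℝ} (h : Good g) : Good (g * b) := by
  obtain ⟨h1, h2, h3⟩ := h
  refine ⟨?_, ?_, ?_⟩
  · intro i j
    have e0 := h1 i 0
    have e1 := h1 i 1
    fin_cases j <;> simp [b_val, bM, Matrix.mul_apply, Fin.sum_univ_two] <;> linarith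
  · rw [cA_b]; linarith
  · rw [cB_b]; linarith

theorem S_mono (n : ℕ) : ∀ φ ψ : GL (Fin 2) ℝ → ℝ, (∀ g, Good g → φ g ≤ ψ g) → S n φ ≤ S n ψ := by
  induction n with
  | zero =>
    intro φ ψ h
    exact h 1 good_one
  | succ n ih =>
    intro φ ψ h
    have h1 := ih (fun g => φ (g * u)) (fun g => ψ (g * u)) fun g hg => h _ hg.mul_u
    have h2 := ih (fun g => φ (g * b)) (fun g => ψ (g * b)) fun g hg => h _ hg.mul_b
    exact add_le_add (mul_le_mul_of_nonneg_left h1 p_pos.le)
      (mul_le_mul_of_nonneg_left h2 q_pos.le)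

theorem S_add (n : ℕ) : ∀ φ ψ : GL (Fin 2) ℝ → ℝ, S n (fun g => φ g + ψ g) = S n φ + S n ψ := by
  induction n with
  | zero =>
    intro φ ψ
    rfl
  | succ n ih =>
    intro φ ψ
    simp only [S]
    rw [ih, ih]
    ring

theorem S_smul (n : ℕ) : ∀ (c : ℝ) (φ : GL (Fin 2) ℝ → ℝ), S n (fun g => c * φ g) = c * S n φ := by
  induction n with
  | zero =>
    intro c φ
    rfl
  | succ n ih =>
    intro c φ
    simp only [S]
    rw [ih, ih]
    ring

theorem S_one (n : ℕ) : S n (fun _ => 1) = 1 := by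
  induction n with
  | zero => rfl
  | succ n ih =>
    simp only [S]
    rw [ih]
    linarith [p_add_q]

theorem S_comp (n m : ℕ) : ∀ φ : GL (Fin 2) ℝ → ℝ,
    S (n + m) φ = S n (fun g => S m (fun h => φ (g * h))) := by
  induction m with
  | zero =>
    intro φ
    simp only [S, mul_one, Nat.add_zero]
  | succ m ih =>
    intro φ
    change p * S (n + m) (fun g => φ (g * u)) + q * S (n + m) (fun g => φ (g * b)) = _
    rw [ih, ih]
    simp only [S]
    rw [S_add, S_smul, S_smul]
    simp only [mul_assoc]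

theorem S_nonneg (n : ℕ) (φ : GL (Fin 2) ℝ → ℝ) (h : ∀ g, Good g → 0 ≤ φ g) : 0 ≤ S n φ := by
  have := S_mono n (fun _ => 0 * 1) φ (fun g hg => by simpa using h g hg)
  rw [S_smul] at this
  simpa using this

theorem S_ge_u (n : ℕ) : ∀ φ : GL (Fin 2) ℝ → ℝ, (∀ g, Good g → 0 ≤ φ g) →
    p ^ n * φ (u ^ n) ≤ S n φ := by
  induction n with
  | zero =>
    intro φ h
    simp [S]
  | succ n ih =>
    intro φ h
    have h1 := ih (fun g => φ (g * u)) fun g hg => h _ hg.mul_u
    have h2 := S_nonneg n (fun g => φ (g * b)) fun g hg => h _ hg.mul_b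
    simp only [S]
    have h3 : p ^ (n + 1) * φ (u ^ (n + 1)) = p * (p ^ n * φ (u ^ n * u)) := by
      rw [pow_succ u]
      ring
    rw [h3]
    have := mul_le_mul_of_nonneg_left h1 p_pos.le
    have := mul_nonneg q_pos.le h2
    linarith

theorem S_ge_b (n : ℕ) : ∀ φ : GL (Fin 2) ℝ → ℝ, (∀ g, Good g → 0 ≤ φ g) →
    q ^ n * φ (b ^ n) ≤ S n φ := by
  induction n with
  | zero =>
    intro φ h
    simp [S]
  | succ n ih =>
    intro φ h
    have h1 := ih (fun g => φ (g * b)) fun g hg => h _ hg.mul_b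
    have h2 := S_nonneg n (fun g => φ (g * u)) fun g hg => h _ hg.mul_u
    simp only [S]
    have h3 : q ^ (n + 1) * φ (b ^ (n + 1)) = q * (q ^ n * φ (b ^ n * b)) := by
      rw [pow_succ b]
      ring
    rw [h3]
    have := mul_le_mul_of_nonneg_left h1 q_pos.le
    have := mul_nonneg p_pos.le h2
    linarith

/-! ### The main upper bound -/

/-- The test function `((1 + l) A + B)^t`. -/
def F (t : ℝ) (l : ℕ) (g : GL (Fin 2) ℝ) : ℝ := ((1 + (l : ℝ)) * cA g + cB g) ^ t

theorem F_nonneg (t : ℝ) (l : ℕ) (g : GL (Fin 2) ℝ) (hg : Good g) : 0 ≤ F t l g := by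
  refine Real.rpow_nonneg ?_ _
  have h1 := hg.2.1
  have h2 := hg.2.2
  positivity

theorem F_u (t : ℝ) (l : ℕ) (g : GL (Fin 2) ℝ) : F t l (g * u) = F t (l + 1) g := by
  unfold F
  rw [cA_u, cB_u]
  congr 1
  push_cast
  ring

theorem F_b (t : ℝ) (ht : t ≤ 0) (l : ℕ) (g : GL (Fin 2) ℝ) (hg : Good g) :
    F t l (g * b) ≤ (10 : ℝ) ^ (-t) * (2 + (l : ℝ)) ^ t * F t 0 g := by
  have h1 := hg.2.1
  have h2 := hg.2.2
  unfold F
  rw [cA_b, cB_b]
  have hl : (0 : ℝ) ≤ l := Nat.cast_nonneg l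
  have e : (10 : ℝ) ^ (-t) * (2 + (l : ℝ)) ^ t * ((1 + ((0 : ℕ) : ℝ)) * cA g + cB g) ^ t =
      ((2 + (l : ℝ)) * (cA g + cB g) / 10) ^ t := by
    rw [Real.div_rpow (by positivity) (by norm_num), Real.mul_rpow (by positivity) (by positivity),
      Real.rpow_neg (by norm_num)]
    push_cast
    rw [add_zero, one_mul]
    field_simp
  rw [e]
  refine Real.rpow_le_rpow_of_nonpos (by positivity) ?_ ht
  have : 0 ≤ (l : ℝ) * cA g := by positivity
  linarith

theorem upper (t : ℝ) (h3 : -3 ≤ t) (h2 : t ≤ -2) (n : ℕ) :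
    ∀ l : ℕ, S n (F t l) ≤ p ^ n * (1 / (1 + (l : ℝ))) := by
  have hpow : ∀ l : ℕ, (2 + (l : ℝ)) ^ t ≤ 1 / (2 + (l : ℝ)) ^ 2 := by
    intro l
    have hl : (0 : ℝ) ≤ l := Nat.cast_nonneg l
    calc (2 + (l : ℝ)) ^ t ≤ (2 + (l : ℝ)) ^ (-2 : ℝ) :=
          Real.rpow_le_rpow_of_exponent_le (by linarith) h2
      _ = 1 / (2 + (l : ℝ)) ^ 2 := by
          rw [Real.rpow_neg (by positivity), one_div]
          norm_cast
  induction n with
  | zero =>
    intro l
    have hl : (0 : ℝ) ≤ l := Nat.cast_nonneg l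
    simp only [S, F, cA_one, cB_one, pow_zero, one_mul, mul_one]
    have : (1 + (l : ℝ) + 1) = 2 + l := by ring
    rw [this]
    refine (hpow l).trans ?_
    rw [div_le_div_iff₀ (by positivity) (by positivity)]
    nlinarith
  | succ n ih =>
    intro l
    have hl : (0 : ℝ) ≤ l := Nat.cast_nonneg l
    simp only [S]
    have e1 : S n (fun g => F t l (g * u)) = S n (F t (l + 1)) := by
      congr 1
      funext g
      exact F_u t l g
    have e2 : S n (fun g => F t l (g * b)) ≤
        (10 : ℝ) ^ (-t) * (2 + (l : ℝ)) ^ t * S n (F t 0) := by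
      rw [← S_smul]
      exact S_mono n _ _ fun g hg => F_b t (by linarith) l g hg
    rw [e1]
    have i1 := ih (l + 1)
    have i0 := ih 0
    push_cast at i1 i0
    rw [add_zero, div_one, mul_one] at i0
    have h10 : (10 : ℝ) ^ (-t) ≤ 1000 := by
      calc (10 : ℝ) ^ (-t) ≤ (10 : ℝ) ^ (3 : ℝ) :=
            Real.rpow_le_rpow_of_exponent_le (by norm_num) (by linarith)
        _ = 1000 := by norm_num
    have hS0 : 0 ≤ S n (F t 0) := S_nonneg n _ fun g hg => F_nonneg t 0 g hg
    have hp : 0 < p ^ n := pow_pos p_pos n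
    have hx : 0 ≤ (2 + (l : ℝ)) ^ t := Real.rpow_nonneg (by positivity) _
    have h5 : q * ((10 : ℝ) ^ (-t) * (2 + (l : ℝ)) ^ t * S n (F t 0)) ≤
        p * (1 / (2 + (l : ℝ)) ^ 2 * p ^ n) := by
      have a1 : (10 : ℝ) ^ (-t) * (2 + (l : ℝ)) ^ t * S n (F t 0) ≤
          1000 * (1 / (2 + (l : ℝ)) ^ 2) * p ^ n := by
        refine mul_le_mul (mul_le_mul h10 (hpow l) hx (by norm_num)) i0 hS0 (by positivity)
      have a2 := mul_le_mul_of_nonneg_left a1 q_pos.le
      have a3 : q * (1000 * (1 / (2 + (l : ℝ)) ^ 2) * p ^ n) =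
          p * (1 / (2 + (l : ℝ)) ^ 2 * p ^ n) := by
        simp only [p, q]
        ring
      linarith
    have h6 : p * S n (F t (l + 1)) ≤ p * (p ^ n * (1 / (1 + ((l : ℝ) + 1)))) :=
      mul_le_mul_of_nonneg_left i1 p_pos.le
    have h7 : q * S n (fun g => F t l (g * b)) ≤
        q * ((10 : ℝ) ^ (-t) * (2 + (l : ℝ)) ^ t * S n (F t 0)) :=
      mul_le_mul_of_nonneg_left e2 q_pos.le
    have h8 : 1 / (1 + ((l : ℝ) + 1)) + 1 / (2 + (l : ℝ)) ^ 2 ≤ 1 / (1 + (l : ℝ)) := by
      have e : (1 + ((l : ℝ) + 1)) = 2 + l := by ring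
      rw [e, div_add_div _ _ (by positivity) (by positivity),
        div_le_div_iff₀ (by positivity) (by positivity)]
      nlinarith [mul_nonneg hl hl, mul_nonneg (mul_nonneg hl hl) hl]
    calc p * S n (F t (l + 1)) + q * S n (fun g => F t l (g * b))
        ≤ p * (p ^ n * (1 / (1 + ((l : ℝ) + 1)))) + p * (1 / (2 + (l : ℝ)) ^ 2 * p ^ n) := by
          linarith
      _ = p ^ (n + 1) * (1 / (1 + ((l : ℝ) + 1)) + 1 / (2 + (l : ℝ)) ^ 2) := by ring
      _ ≤ p ^ (n + 1) * (1 / (1 + (l : ℝ))) :=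
          mul_le_mul_of_nonneg_left h8 (pow_pos p_pos _).le

/-! ### The operator norm -/

theorem opNorm_eq {d : ℕ} (g : GL (Fin d) ℝ) : opNorm g =
    ‖LinearMap.toContinuousLinearMap (Matrix.toEuclideanLin (g : Matrix (Fin d) (Fin d) ℝ))‖ :=
  Matrix.l2_opNorm_def _

theorem opNorm_nonneg {d : ℕ} (g : GL (Fin d) ℝ) : 0 ≤ opNorm g := by
  rw [opNorm_eq]
  exact norm_nonneg _

theorem opNorm_mul {d : ℕ} (g h : GL (Fin d) ℝ) : opNorm (g * h) ≤ opNorm g * opNorm h := by
  simp only [opNorm_eq]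
  have : LinearMap.toContinuousLinearMap
      (Matrix.toEuclideanLin ((g * h : GL (Fin d) ℝ) : Matrix (Fin d) (Fin d) ℝ)) =
      (LinearMap.toContinuousLinearMap
        (Matrix.toEuclideanLin (g : Matrix (Fin d) (Fin d) ℝ))).comp
      (LinearMap.toContinuousLinearMap
        (Matrix.toEuclideanLin (h : Matrix (Fin d) (Fin d) ℝ))) := by
    ext v i
    simp [Matrix.toLpLin_apply, Matrix.mulVec_mulVec]
  rw [this]
  exact ContinuousLinearMap.opNorm_comp_le _ _

theorem opNorm_one {d : ℕ} (hd : 0 < d) : opNorm (1 : GL (Fin d) ℝ) = 1 := by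
  rw [opNorm_eq]
  have : Nonempty (Fin d) := ⟨⟨0, hd⟩⟩
  have : LinearMap.toContinuousLinearMap
      (Matrix.toEuclideanLin ((1 : GL (Fin d) ℝ) : Matrix (Fin d) (Fin d) ℝ)) =
      ContinuousLinearMap.id ℝ (EuclideanSpace ℝ (Fin d)) := by
    ext v i
    simp
  rw [this]
  exact ContinuousLinearMap.norm_id

theorem opNorm_pow {d : ℕ} (hd : 0 < d) (g : GL (Fin d) ℝ) (n : ℕ) : opNorm (g ^ n) ≤ opNorm g ^ n := by
  induction n with
  | zero => simp [opNorm_one hd]
  | succ n ih =>
    rw [pow_succ, pow_succ]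
    exact (opNorm_mul _ _).trans (mul_le_mul_of_nonneg_right ih (opNorm_nonneg g))

/-- Lower bound of the norm by the sum of the entries. -/
theorem sum_le_opNorm (g : GL (Fin 2) ℝ) : cA g + cB g ≤ 2 * opNorm g := by
  rw [opNorm_eq]
  set T := LinearMap.toContinuousLinearMap
    (Matrix.toEuclideanLin (g : Matrix (Fin 2) (Fin 2) ℝ)) with hT
  set e : EuclideanSpace ℝ (Fin 2) := WithLp.toLp 2 (fun _ => 1) with he
  have hn : ‖e‖ = Real.sqrt 2 := by
    rw [EuclideanSpace.norm_eq]
    simp [he]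
  have h1 : inner ℝ e (T e) = cA g + cB g := by
    simp [hT, he, Matrix.toLpLin_apply, Fin.sum_univ_two, cA, cB, PiLp.inner_apply]
    ring
  have h2 : inner ℝ e (T e) ≤ ‖e‖ * (‖T‖ * ‖e‖) :=
    (real_inner_le_norm _ _).trans
      (mul_le_mul_of_nonneg_left (T.le_opNorm e) (norm_nonneg _))
  rw [h1, hn] at h2
  have h3 : Real.sqrt 2 * (‖T‖ * Real.sqrt 2) = 2 * ‖T‖ := by
    calc Real.sqrt 2 * (‖T‖ * Real.sqrt 2) = Real.sqrt 2 * Real.sqrt 2 * ‖T‖ := by ring
      _ = 2 * ‖T‖ := by rw [Real.mul_self_sqrt (show (0 : ℝ) ≤ 2 by norm_num)]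
  rw [h3] at h2
  exact h2

/-- Upper bound of the norm by the sum of the entries. -/
theorem opNorm_le_sum (g : GL (Fin 2) ℝ) (hg : ∀ i j, 0 ≤ (g : Matrix (Fin 2) (Fin 2) ℝ) i j) :
    opNorm g ≤ cA g + cB g := by
  rw [opNorm_eq]
  have h0 : 0 ≤ cA g + cB g := by
    unfold cA cB
    have := hg 0 0
    have := hg 0 1
    have := hg 1 0
    have := hg 1 1
    linarith
  refine ContinuousLinearMap.opNorm_le_bound _ h0 fun v => ?_
  have hc : ∀ i, |v i| ≤ ‖v‖ := by
    intro i
    have := PiLp.norm_apply_le v i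
    simpa using this
  have h1 : ‖LinearMap.toContinuousLinearMap
      (Matrix.toEuclideanLin (g : Matrix (Fin 2) (Fin 2) ℝ)) v‖ ≤
      ∑ i, |(LinearMap.toContinuousLinearMap
      (Matrix.toEuclideanLin (g : Matrix (Fin 2) (Fin 2) ℝ)) v) i| := by
    rw [EuclideanSpace.norm_eq]
    refine Real.sqrt_le_iff.2 ⟨Finset.sum_nonneg fun i _ => abs_nonneg _, ?_⟩
    simp only [Fin.sum_univ_two, Real.norm_eq_abs]
    nlinarith [abs_nonneg ((LinearMap.toContinuousLinearMap
      (Matrix.toEuclideanLin (g : Matrix (Fin 2) (Fin 2) ℝ)) v) 0),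
      abs_nonneg ((LinearMap.toContinuousLinearMap
      (Matrix.toEuclideanLin (g : Matrix (Fin 2) (Fin 2) ℝ)) v) 1)]
  refine h1.trans ?_
  simp only [Fin.sum_univ_two]
  have h2 : ∀ i, |(LinearMap.toContinuousLinearMap
      (Matrix.toEuclideanLin (g : Matrix (Fin 2) (Fin 2) ℝ)) v) i| ≤
      ((g : Matrix (Fin 2) (Fin 2) ℝ) i 0 + (g : Matrix (Fin 2) (Fin 2) ℝ) i 1) * ‖v‖ := by
    intro i
    have e : (LinearMap.toContinuousLinearMap
      (Matrix.toEuclideanLin (g : Matrix (Fin 2) (Fin 2) ℝ)) v) i =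
      (g : Matrix (Fin 2) (Fin 2) ℝ) i 0 * v 0 + (g : Matrix (Fin 2) (Fin 2) ℝ) i 1 * v 1 := by
      fin_cases i <;> simp [Matrix.toLpLin_apply]
    rw [e]
    calc |(g : Matrix (Fin 2) (Fin 2) ℝ) i 0 * v 0 + (g : Matrix (Fin 2) (Fin 2) ℝ) i 1 * v 1|
        ≤ |(g : Matrix (Fin 2) (Fin 2) ℝ) i 0 * v 0| +
          |(g : Matrix (Fin 2) (Fin 2) ℝ) i 1 * v 1| := abs_add_le _ _
      _ = (g : Matrix (Fin 2) (Fin 2) ℝ) i 0 * |v 0| +
          (g : Matrix (Fin 2) (Fin 2) ℝ) i 1 * |v 1| := by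
          rw [abs_mul, abs_mul, abs_of_nonneg (hg i 0), abs_of_nonneg (hg i 1)]
      _ ≤ (g : Matrix (Fin 2) (Fin 2) ℝ) i 0 * ‖v‖ +
          (g : Matrix (Fin 2) (Fin 2) ℝ) i 1 * ‖v‖ :=
          add_le_add (mul_le_mul_of_nonneg_left (hc 0) (hg i 0))
            (mul_le_mul_of_nonneg_left (hc 1) (hg i 1))
      _ = _ := by ring
  have := h2 0
  have := h2 1
  unfold cA cB
  linarith

theorem Good.opNorm_pos {g : GL (Fin 2) ℝ} (h : Good g) : 0 < opNorm g := by
  have := sum_le_opNorm g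
  have := h.2.1
  have := h.2.2
  linarith

theorem good_u_pow (n : ℕ) : Good (u ^ n) ∧ cA (u ^ n) = 1 ∧ cB (u ^ n) = n + 1 := by
  induction n with
  | zero =>
    rw [pow_zero]
    exact ⟨good_one, cA_one, by rw [cB_one]; simp⟩
  | succ n ih =>
    rw [pow_succ]
    refine ⟨ih.1.mul_u, ?_, ?_⟩
    · rw [cA_u, ih.2.1]
    · rw [cB_u, ih.2.1, ih.2.2]
      push_cast
      ring

theorem opNorm_b : opNorm b ≤ 1 / 2 := by
  have h := opNorm_le_sum b (by
    intro i j
    fin_cases i <;> fin_cases j <;> simp [b_val, bM])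
  have e : cA b + cB b = 1 / 2 := by
    simp [cA, cB, b_val, bM]
    norm_num
  rw [e] at h
  exact h

theorem opNorm_b_pos : 0 < opNorm b := by
  have : Good (1 * b) := good_one.mul_b
  rw [one_mul] at this
  exact this.opNorm_pos

/-! ### The integrals `a n = log ∫ |g|^t dμ^n` -/

/-- The integral of `|g|^t`. -/
def I (t : ℝ) (n : ℕ) : ℝ := S n (fun g => opNorm g ^ t)

theorem I_lower_u (t : ℝ) (n : ℕ) : p ^ n * opNorm (u ^ n) ^ t ≤ I t n :=
  S_ge_u n _ fun g _ => Real.rpow_nonneg (opNorm_nonneg g) _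

theorem I_lower_b (t : ℝ) (n : ℕ) : q ^ n * opNorm (b ^ n) ^ t ≤ I t n :=
  S_ge_b n _ fun g _ => Real.rpow_nonneg (opNorm_nonneg g) _

theorem I_pos (t : ℝ) (n : ℕ) : 0 < I t n :=
  lt_of_lt_of_le (mul_pos (pow_pos p_pos n)
    (Real.rpow_pos_of_pos (good_u_pow n).1.opNorm_pos _)) (I_lower_u t n)

theorem I_zero (n : ℕ) : I 0 n = 1 := by
  unfold I
  simp only [Real.rpow_zero]
  exact S_one n

theorem I_mul_le (t : ℝ) (ht : 0 ≤ t) (n m : ℕ) : I t (n + m) ≤ I t n * I t m := by
  unfold I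
  rw [S_comp]
  have h1 : ∀ g, S m (fun h => opNorm (g * h) ^ t) ≤
      S m (fun g => opNorm g ^ t) * opNorm g ^ t := by
    intro g
    rw [mul_comm, ← S_smul]
    refine S_mono m _ _ fun h _ => ?_
    rw [← Real.mul_rpow (opNorm_nonneg g) (opNorm_nonneg h)]
    exact Real.rpow_le_rpow (opNorm_nonneg _) (opNorm_mul g h) ht
  calc S n (fun g => S m (fun h => opNorm (g * h) ^ t))
      ≤ S n (fun g => S m (fun g => opNorm g ^ t) * opNorm g ^ t) := S_mono n _ _ fun g _ => h1 g
    _ = _ := by rw [S_smul, mul_comm]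

theorem Good.mul {g h : GL (Fin 2) ℝ} (hg : Good g) (hh : Good h) : Good (g * h) := by
  obtain ⟨g1, g2, g3⟩ := hg
  obtain ⟨h1, h2, h3⟩ := hh
  refine ⟨?_, ?_, ?_⟩
  · intro i j
    simp only [Units.val_mul, Matrix.mul_apply]
    exact Finset.sum_nonneg fun k _ => mul_nonneg (g1 i k) (h1 k j)
  · have e : cA (g * h) = cA g * (h : Matrix (Fin 2) (Fin 2) ℝ) 0 0 +
        cB g * (h : Matrix (Fin 2) (Fin 2) ℝ) 1 0 := by
      simp [cA, cB, Matrix.mul_apply, Fin.sum_univ_two]
      ring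
    rw [e]
    have a := h1 0 0
    have c := h1 1 0
    unfold cA at h2
    rcases a.lt_or_eq with a' | a'
    · have := mul_pos g2 a'
      have := mul_nonneg g3.le c
      linarith
    · have c' : 0 < (h : Matrix (Fin 2) (Fin 2) ℝ) 1 0 := by linarith
      have := mul_pos g3 c'
      have := mul_nonneg g2.le a
      linarith
  · have e : cB (g * h) = cA g * (h : Matrix (Fin 2) (Fin 2) ℝ) 0 1 +
        cB g * (h : Matrix (Fin 2) (Fin 2) ℝ) 1 1 := by
      simp [cA, cB, Matrix.mul_apply, Fin.sum_univ_two]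
      ring
    rw [e]
    have a := h1 0 1
    have c := h1 1 1
    unfold cB at h3
    rcases a.lt_or_eq with a' | a'
    · have := mul_pos g2 a'
      have := mul_nonneg g3.le c
      linarith
    · have c' : 0 < (h : Matrix (Fin 2) (Fin 2) ℝ) 1 1 := by linarith
      have := mul_pos g3 c'
      have := mul_nonneg g2.le a
      linarith

theorem I_mul_ge (t : ℝ) (ht : t ≤ 0) (n m : ℕ) : I t n * I t m ≤ I t (n + m) := by
  unfold I
  rw [S_comp]
  have h1 : ∀ g, Good g → S m (fun g => opNorm g ^ t) * opNorm g ^ t ≤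
      S m (fun h => opNorm (g * h) ^ t) := by
    intro g hg
    rw [mul_comm, ← S_smul]
    refine S_mono m _ _ fun h hh => ?_
    rw [← Real.mul_rpow (opNorm_nonneg g) (opNorm_nonneg h)]
    exact Real.rpow_le_rpow_of_nonpos (hg.mul hh).opNorm_pos (opNorm_mul g h) ht
  calc S n (fun g => opNorm g ^ t) * S m (fun g => opNorm g ^ t)
      = S n (fun g => S m (fun g => opNorm g ^ t) * opNorm g ^ t) := by rw [S_smul, mul_comm]
    _ ≤ _ := S_mono n _ _ fun g hg => h1 g hg

/-- Crude upper bound for `t ≤ 0`. -/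
theorem I_upper (t : ℝ) (ht : t ≤ 0) (n : ℕ) : I t n ≤ ((5 : ℝ) ^ (-t)) ^ n := by
  have key : ∀ n : ℕ, S n (fun g => (cA g + cB g) ^ t) ≤ ((5 : ℝ) ^ (-t)) ^ n * 2 ^ t := by
    intro n
    induction n with
    | zero =>
      simp only [S, cA_one, cB_one, pow_zero, one_mul]
      norm_num
    | succ n ih =>
      simp only [S]
      have h5 : (1 : ℝ) ≤ 5 ^ (-t) := Real.one_le_rpow (by norm_num) (by linarith)
      have hnn : 0 ≤ S n (fun g => (cA g + cB g) ^ t) := S_nonneg n _ fun g hg => by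
        have := hg.2.1
        have := hg.2.2
        positivity
      have e1 : S n (fun g => (cA (g * u) + cB (g * u)) ^ t) ≤
          5 ^ (-t) * S n (fun g => (cA g + cB g) ^ t) := by
        refine le_trans (S_mono n _ (fun g => (cA g + cB g) ^ t) fun g hg => ?_) ?_
        · have := hg.2.1
          have := hg.2.2
          rw [cA_u, cB_u]
          exact Real.rpow_le_rpow_of_nonpos (by positivity) (by linarith) ht
        · nlinarith
      have e2 : S n (fun g => (cA (g * b) + cB (g * b)) ^ t) ≤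
          5 ^ (-t) * S n (fun g => (cA g + cB g) ^ t) := by
        rw [← S_smul]
        refine S_mono n _ _ fun g hg => ?_
        have := hg.2.1
        have := hg.2.2
        rw [cA_b, cB_b]
        have e : (5 : ℝ) ^ (-t) * (cA g + cB g) ^ t = ((cA g + cB g) / 5) ^ t := by
          rw [Real.div_rpow (by positivity) (by norm_num), Real.rpow_neg (by norm_num)]
          field_simp
        rw [e]
        exact Real.rpow_le_rpow_of_nonpos (by positivity) (by linarith) ht
      have f1 := mul_le_mul_of_nonneg_left e1 p_pos.le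
      have f2 := mul_le_mul_of_nonneg_left e2 q_pos.le
      have f3 : (p + q) * (5 ^ (-t) * S n (fun g => (cA g + cB g) ^ t)) ≤
          (5 ^ (-t)) ^ (n + 1) * 2 ^ t := by
        rw [p_add_q, one_mul, pow_succ]
        have := mul_le_mul_of_nonneg_left ih (show (0 : ℝ) ≤ 5 ^ (-t) by positivity)
        linarith
      linarith
  have h1 : I t n ≤ (2 : ℝ) ^ (-t) * S n (fun g => (cA g + cB g) ^ t) := by
    rw [← S_smul]
    refine S_mono n _ _ fun g hg => ?_
    have := hg.2.1
    have := hg.2.2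
    have e : (2 : ℝ) ^ (-t) * (cA g + cB g) ^ t = ((cA g + cB g) / 2) ^ t := by
      rw [Real.div_rpow (by positivity) (by norm_num), Real.rpow_neg (by norm_num)]
      field_simp
    rw [e]
    refine Real.rpow_le_rpow_of_nonpos (by positivity) ?_ ht
    have := sum_le_opNorm g
    linarith
  refine h1.trans ?_
  have := mul_le_mul_of_nonneg_left (key n) (show (0 : ℝ) ≤ 2 ^ (-t) by positivity)
  have e : (2 : ℝ) ^ (-t) * (((5 : ℝ) ^ (-t)) ^ n * 2 ^ t) = ((5 : ℝ) ^ (-t)) ^ n := by
    rw [Real.rpow_neg (by norm_num)]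
    field_simp
  rw [e] at this
  exact this

theorem I_upper_mid (t : ℝ) (h3 : -3 ≤ t) (h2 : t ≤ -2) (n : ℕ) : I t n ≤ (2 : ℝ) ^ (-t) * p ^ n := by
  have h1 : I t n ≤ (2 : ℝ) ^ (-t) * S n (F t 0) := by
    rw [← S_smul]
    refine S_mono n _ _ fun g hg => ?_
    have := hg.2.1
    have := hg.2.2
    have e : (2 : ℝ) ^ (-t) * F t 0 g = ((cA g + cB g) / 2) ^ t := by
      unfold F
      rw [Real.div_rpow (by positivity) (by norm_num), Real.rpow_neg (by norm_num)]
      push_cast
      rw [add_zero, one_mul]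
      field_simp
    rw [e]
    refine Real.rpow_le_rpow_of_nonpos (by positivity) ?_ (by linarith)
    have := sum_le_opNorm g
    linarith
  refine h1.trans (mul_le_mul_of_nonneg_left ?_ (by positivity))
  have := upper t h3 h2 n 0
  simpa using this

/-! ### Existence of the limits -/

theorem exists_limit (t : ℝ) : ∃ l : ℝ,
    Tendsto (fun n : ℕ => 1 / (n : ℝ) * Real.log (I t n)) atTop (𝓝 l) := by
  rcases le_total 0 t with ht | ht
  · have hs : Subadditive fun n => Real.log (I t n) := by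
      intro m n
      rw [← Real.log_mul (I_pos t m).ne' (I_pos t n).ne']
      exact Real.log_le_log (I_pos t _) (I_mul_le t ht m n)
    have hb : BddBelow (Set.range fun n : ℕ => Real.log (I t n) / n) := by
      refine ⟨Real.log p, ?_⟩
      rintro _ ⟨n, rfl⟩
      have hlogp : Real.log p ≤ 0 := Real.log_nonpos p_pos.le p_lt.le
      rcases Nat.eq_zero_or_pos n with rfl | hn
      · simpa using hlogp
      have hn' : (0 : ℝ) < n := by exact_mod_cast hn
      rw [le_div_iff₀ hn', mul_comm, ← Real.log_pow]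
      refine Real.log_le_log (pow_pos p_pos n) (le_trans ?_ (I_lower_u t n))
      have h1 : 1 ≤ opNorm (u ^ n) := by
        have := sum_le_opNorm (u ^ n)
        rw [(good_u_pow n).2.1, (good_u_pow n).2.2] at this
        linarith
      have h2 : 1 ≤ opNorm (u ^ n) ^ t := Real.one_le_rpow h1 ht
      have := pow_pos p_pos n
      nlinarith
    refine ⟨_, (hs.tendsto_lim hb).congr fun n => ?_⟩
    ring
  · have hs : Subadditive fun n => - Real.log (I t n) := by
      intro m n
      have : Real.log (I t m) + Real.log (I t n) ≤ Real.log (I t (m + n)) := by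
        rw [← Real.log_mul (I_pos t m).ne' (I_pos t n).ne']
        exact Real.log_le_log (mul_pos (I_pos t m) (I_pos t n)) (I_mul_ge t ht m n)
      linarith
    have hb : BddBelow (Set.range fun n : ℕ => - Real.log (I t n) / n) := by
      refine ⟨- Real.log ((5 : ℝ) ^ (-t)), ?_⟩
      rintro _ ⟨n, rfl⟩
      have hlog5 : 0 ≤ Real.log ((5 : ℝ) ^ (-t)) :=
        Real.log_nonneg (Real.one_le_rpow (by norm_num) (by linarith))
      rcases Nat.eq_zero_or_pos n with rfl | hn
      · simpa using hlog5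
      have hn' : (0 : ℝ) < n := by exact_mod_cast hn
      rw [le_div_iff₀ hn']
      have := Real.log_le_log (I_pos t n) (I_upper t ht n)
      rw [Real.log_pow] at this
      linarith
    refine ⟨_, (hs.tendsto_lim hb).neg.congr fun n => ?_⟩
    ring

/-- The moment exponent. -/
def kk (t : ℝ) : ℝ := (exists_limit t).choose

theorem kk_spec (t : ℝ) :
    Tendsto (fun n : ℕ => 1 / (n : ℝ) * Real.log (I t n)) atTop (𝓝 (kk t)) :=
  (exists_limit t).choose_spec

theorem kk_isMomentExponent : IsMomentExponent μ₀ kk := by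
  intro t
  refine (kk_spec t).congr fun n => ?_
  rw [integral_eq]
  rfl

theorem kk_zero : kk 0 = 0 := by
  refine tendsto_nhds_unique (kk_spec 0) ?_
  simp only [I_zero, Real.log_one, mul_zero]
  exact tendsto_const_nhds

theorem kk_mid (t : ℝ) (h3 : -3 ≤ t) (h2 : t ≤ -2) : kk t = Real.log p := by
  refine tendsto_nhds_unique (kk_spec t) ?_
  have hlow : ∀ᶠ n : ℕ in atTop, Real.log p + t * (Real.log ((n : ℝ) + 2) / n) ≤
      1 / (n : ℝ) * Real.log (I t n) := by
    filter_upwards [eventually_gt_atTop 0] with n hn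
    have hn' : (0 : ℝ) < n := by exact_mod_cast hn
    have hI := I_lower_u t n
    have h1 : opNorm (u ^ n) ≤ n + 2 := by
      have := opNorm_le_sum (u ^ n) (good_u_pow n).1.1
      rw [(good_u_pow n).2.1, (good_u_pow n).2.2] at this
      linarith
    have h2' : ((n : ℝ) + 2) ^ t ≤ opNorm (u ^ n) ^ t :=
      Real.rpow_le_rpow_of_nonpos (good_u_pow n).1.opNorm_pos h1 (by linarith)
    have h4 : p ^ n * ((n : ℝ) + 2) ^ t ≤ I t n :=
      (mul_le_mul_of_nonneg_left h2' (pow_pos p_pos n).le).trans hI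
    have h5 := Real.log_le_log (mul_pos (pow_pos p_pos n)
      (Real.rpow_pos_of_pos (by positivity) _)) h4
    rw [Real.log_mul (pow_pos p_pos n).ne' (Real.rpow_pos_of_pos (by positivity) _).ne',
      Real.log_pow, Real.log_rpow (by positivity)] at h5
    have h6 : Real.log p + t * (Real.log ((n : ℝ) + 2) / n) =
        1 / (n : ℝ) * ((n : ℝ) * Real.log p + t * Real.log ((n : ℝ) + 2)) := by
      field_simp
    rw [h6]
    exact mul_le_mul_of_nonneg_left h5 (by positivity)
  have hup : ∀ᶠ n : ℕ in atTop, 1 / (n : ℝ) * Real.log (I t n) ≤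
      Real.log p + Real.log ((2 : ℝ) ^ (-t)) * (1 / (n : ℝ)) := by
    filter_upwards [eventually_gt_atTop 0] with n hn
    have hn' : (0 : ℝ) < n := by exact_mod_cast hn
    have h5 := Real.log_le_log (I_pos t n) (I_upper_mid t h3 h2 n)
    rw [Real.log_mul (by positivity) (pow_pos p_pos n).ne', Real.log_pow] at h5
    have h6 : Real.log p + Real.log ((2 : ℝ) ^ (-t)) * (1 / (n : ℝ)) =
        1 / (n : ℝ) * (Real.log ((2 : ℝ) ^ (-t)) + (n : ℝ) * Real.log p) := by
      field_simp
      ring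
    rw [h6]
    exact mul_le_mul_of_nonneg_left h5 (by positivity)
  have hlog : Tendsto (fun n : ℕ => Real.log ((n : ℝ) + 2) / n) atTop (𝓝 0) := by
    have h1 : Tendsto (fun x : ℝ => Real.log x / x) atTop (𝓝 0) := by
      have := Real.isLittleO_log_id_atTop
      exact this.tendsto_div_nhds_zero
    have h2 : Tendsto (fun n : ℕ => (n : ℝ) + 2) atTop atTop :=
      tendsto_atTop_add_const_right _ _ tendsto_natCast_atTop_atTop
    have h3 := h1.comp h2
    have h4 : Tendsto (fun n : ℕ => ((n : ℝ) + 2) / n) atTop (𝓝 1) := by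
      have h5 : Tendsto (fun n : ℕ => 1 + 2 * (1 / (n : ℝ))) atTop (𝓝 (1 + 2 * 0)) :=
        tendsto_const_nhds.add (tendsto_one_div_atTop_nhds_zero_nat.const_mul 2)
      rw [mul_zero, add_zero] at h5
      refine h5.congr' ?_
      filter_upwards [eventually_gt_atTop 0] with n hn
      have hn' : (0 : ℝ) < n := by exact_mod_cast hn
      field_simp
    have h5 := h3.mul h4
    rw [zero_mul] at h5
    refine h5.congr' ?_
    filter_upwards [eventually_gt_atTop 0] with n hn
    have hn' : (0 : ℝ) < n := by exact_mod_cast hn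
    simp only [Function.comp]
    field_simp
  have l1 : Tendsto (fun n : ℕ => Real.log p + t * (Real.log ((n : ℝ) + 2) / n)) atTop
      (𝓝 (Real.log p)) := by
    have := (hlog.const_mul t).const_add (Real.log p)
    simpa using this
  have l2 : Tendsto (fun n : ℕ => Real.log p + Real.log ((2 : ℝ) ^ (-t)) * (1 / (n : ℝ))) atTop
      (𝓝 (Real.log p)) := by
    have := ((tendsto_one_div_atTop_nhds_zero_nat (𝕜 := ℝ)).const_mul
      (Real.log ((2 : ℝ) ^ (-t)))).const_add (Real.log p)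
    simpa using this
  exact tendsto_of_tendsto_of_tendsto_of_le_of_le' l1 l2 hlow hup

theorem kk_neg_ten : 0 < kk (-10) := by
  have h0 : 0 < Real.log (1024 / 1001) := Real.log_pos (by norm_num)
  refine lt_of_lt_of_le h0 (ge_of_tendsto (kk_spec (-10)) ?_)
  filter_upwards [eventually_gt_atTop 0] with n hn
  have hn' : (0 : ℝ) < n := by exact_mod_cast hn
  have h1 : opNorm (b ^ n) ≤ (1 / 2) ^ n :=
    (opNorm_pow (by norm_num) b n).trans (pow_le_pow_left₀ (opNorm_nonneg b) opNorm_b n)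
  have hgood : Good (b ^ n) := by
    clear h1 hn hn'
    induction n with
    | zero => rw [pow_zero]; exact good_one
    | succ n ih => rw [pow_succ]; exact ih.mul_b
  have h2 : (((1 : ℝ) / 2) ^ n) ^ (-10 : ℝ) ≤ opNorm (b ^ n) ^ (-10 : ℝ) :=
    Real.rpow_le_rpow_of_nonpos hgood.opNorm_pos h1 (by norm_num)
  have h3 : (((1 : ℝ) / 2) ^ n) ^ (-10 : ℝ) = 1024 ^ n := by
    rw [← Real.rpow_natCast, ← Real.rpow_mul (by norm_num), mul_comm, Real.rpow_mul (by norm_num),
      Real.rpow_natCast]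
    congr 1
    rw [Real.rpow_neg (by norm_num)]
    norm_num
  rw [h3] at h2
  have h4 : (1024 / 1001 : ℝ) ^ n ≤ I (-10) n := by
    refine le_trans ?_ (I_lower_b (-10) n)
    have : (1024 / 1001 : ℝ) ^ n = q ^ n * 1024 ^ n := by
      rw [← mul_pow]
      congr 1
      norm_num [q]
    rw [this]
    exact mul_le_mul_of_nonneg_left h2 (pow_pos q_pos n).le
  have h5 := Real.log_le_log (by positivity) h4
  rw [Real.log_pow] at h5
  rw [one_div, ← div_eq_inv_mul, le_div_iff₀ hn']
  linarith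

/-! ### Non-analyticity -/

theorem log_p_neg : Real.log p < 0 := Real.log_neg p_pos p_lt

theorem eventually_mid : kk =ᶠ[𝓝 (-5 / 2 : ℝ)] fun _ => Real.log p := by
  have : Set.Ioo (-3 : ℝ) (-2) ∈ 𝓝 (-5 / 2 : ℝ) := Ioo_mem_nhds (by norm_num) (by norm_num)
  filter_upwards [this] with t ht
  exact kk_mid t ht.1.le ht.2.le

theorem analyticAt_mid : AnalyticAt ℝ kk (-5 / 2) :=
  (analyticAt_const (v := Real.log p)).congr eventually_mid.symm

theorem exists_left : ∃ s : ℝ, s < -5 / 2 ∧ ¬ AnalyticAt ℝ kk s := by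
  by_contra hcon
  push Not at hcon
  have h1 : AnalyticOnNhd ℝ kk (Set.Icc (-10) (-5 / 2)) := by
    intro t ht
    rcases ht.2.lt_or_eq with h | h
    · exact hcon t h
    · rw [h]; exact analyticAt_mid
  have h2 : AnalyticOnNhd ℝ (fun _ : ℝ => Real.log p) (Set.Icc (-10) (-5 / 2)) :=
    fun _ _ => analyticAt_const
  have h3 := h1.eqOn_of_preconnected_of_eventuallyEq h2 isPreconnected_Icc
    (z₀ := -5 / 2) ⟨by norm_num, le_rfl⟩ eventually_mid
  have h4 := h3 (show (-10 : ℝ) ∈ Set.Icc (-10 : ℝ) (-5 / 2) from ⟨le_rfl, by norm_num⟩)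
  have h5 := kk_neg_ten
  have h6 := log_p_neg
  simp only at h4
  linarith

theorem exists_right : ∃ s : ℝ, -5 / 2 < s ∧ ¬ AnalyticAt ℝ kk s := by
  by_contra hcon
  push Not at hcon
  have h1 : AnalyticOnNhd ℝ kk (Set.Icc (-5 / 2) 0) := by
    intro t ht
    rcases ht.1.lt_or_eq with h | h
    · exact hcon t h
    · rw [← h]; exact analyticAt_mid
  have h2 : AnalyticOnNhd ℝ (fun _ : ℝ => Real.log p) (Set.Icc (-5 / 2) 0) :=
    fun _ _ => analyticAt_const
  have h3 := h1.eqOn_of_preconnected_of_eventuallyEq h2 isPreconnected_Icc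
    (z₀ := -5 / 2) ⟨le_rfl, by norm_num⟩ eventually_mid
  have h4 := h3 (show (0 : ℝ) ∈ Set.Icc (-5 / 2 : ℝ) 0 from ⟨by norm_num, le_rfl⟩)
  have h5 := kk_zero
  have h6 := log_p_neg
  simp only at h4
  linarith

/-! ### Irreducibility and proximality -/

/-- The identification of the first exterior power with the space itself. -/
def oneE : ExtPow (Fin 2 → ℝ) 1 ≃ₗ[ℝ] (Fin 2 → ℝ) := exteriorPower.oneEquiv ℝ (Fin 2 → ℝ)

theorem ext_apply (g : GL (Fin 2) ℝ) (v : ExtPow (Fin 2 → ℝ) 1) :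
    oneE (extAct 1 g v) = (g : Matrix (Fin 2) (Fin 2) ℝ).mulVec (oneE v) := by
  have h := exteriorPower.oneEquiv_naturality (Matrix.toLin' (g : Matrix (Fin 2) (Fin 2) ℝ))
  exact LinearMap.congr_fun h v

theorem strongly : StronglyIrreducible μ₀ 1 := by
  rintro ⟨s, ⟨W, hW⟩, hs, hinv⟩
  set e := oneE with he
  have hu := hinv _ ⟨u, mem_closedSemigroup u_mem, rfl⟩
  have hb := hinv _ ⟨b, mem_closedSemigroup b_mem, rfl⟩
  -- a vector with nonzero second coordinate in one of the subspaces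
  obtain ⟨W1, hW1, v, hv, hv1⟩ : ∃ W1 ∈ s, ∃ v ∈ W1, e v 1 ≠ 0 := by
    obtain ⟨v, hv, hv0⟩ := (Submodule.ne_bot_iff W).1 (hs W hW).1
    by_cases h1 : e v 1 = 0
    · obtain ⟨W', hW', hv'⟩ := hb W hW v hv
      refine ⟨W', hW', _, hv', ?_⟩
      rw [ext_apply]
      have h0 : e v 0 ≠ 0 := by
        intro h0
        apply hv0
        have : e v = 0 := by
          ext i
          fin_cases i
          · simpa using h0
          · simpa using h1
        simpa using this
      rw [← he]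
      simp [b_val, bM, Matrix.mulVec, dotProduct, Fin.sum_univ_two, h1, h0]
    · exact ⟨W, hW, v, hv, h1⟩
  -- the orbit of this vector under the powers of `u`
  have horb : ∀ k : ℕ, ∃ W' ∈ s, ∃ w ∈ W', e w 0 = e v 0 + k * e v 1 ∧ e w 1 = e v 1 := by
    intro k
    induction k with
    | zero => exact ⟨W1, hW1, v, hv, by simp, rfl⟩
    | succ k ih =>
      obtain ⟨W', hW', w, hw, h0, h1⟩ := ih
      obtain ⟨W'', hW'', hw'⟩ := hu W' hW' w hw
      refine ⟨W'', hW'', _, hw', ?_, ?_⟩
      · rw [ext_apply, ← he]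
        simp only [u_val, uM, Matrix.mulVec, dotProduct, Fin.sum_univ_two, Matrix.of_apply,
          Matrix.cons_val_zero, Matrix.cons_val_one, one_mul, h0, h1]
        push_cast
        ring
      · rw [ext_apply, ← he]
        simp [u_val, uM, Matrix.mulVec, dotProduct, Fin.sum_univ_two, h1]
  choose f hf w hw h0 h1 using horb
  obtain ⟨k, l, hkl, hfkl⟩ : ∃ k l : ℕ, k ≠ l ∧ f k = f l := by
    have := Finite.exists_ne_map_eq_of_infinite (fun k : ℕ => (⟨f k, hf k⟩ : {x // x ∈ s}))
    obtain ⟨k, l, hkl, h⟩ := this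
    exact ⟨k, l, hkl, congrArg Subtype.val h⟩
  refine (hs (f k) (hf k)).2 ?_
  rw [eq_top_iff]
  intro x _
  have hwl : w l ∈ f k := by rw [hfkl]; exact hw l
  set y : ℝ := e v 1 with hy
  have hne : (k : ℝ) - l ≠ 0 := by
    rw [sub_ne_zero]
    exact_mod_cast hkl
  -- `x = α (w k - w l) + β w k`
  set β : ℝ := e x 1 / y with hβ
  set α : ℝ := (e x 0 - β * e (w k) 0) / (((k : ℝ) - l) * y) with hα
  have hx : x = α • (w k - w l) + β • w k := by
    apply e.injective
    rw [map_add, map_smul, map_smul, map_sub]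
    ext i
    fin_cases i
    · simp only [Fin.zero_eta, Pi.add_apply, Pi.smul_apply, Pi.sub_apply, smul_eq_mul]
      rw [h0 l]
      have e1 : e (w k) 0 - (e v 0 + l * y) = ((k : ℝ) - l) * y := by rw [h0 k]; ring
      rw [e1, hα, div_mul_cancel₀ _ (mul_ne_zero hne hv1)]
      ring
    · simp only [Fin.mk_one, Pi.add_apply, Pi.smul_apply, Pi.sub_apply, smul_eq_mul]
      have e2 : e x 1 / y * y = e x 1 := div_mul_cancel₀ _ hv1
      rw [h1 k, h1 l, hβ]
      linarith
  rw [hx]
  exact (f k).add_mem ((f k).smul_mem _ ((f k).sub_mem (hw k) hwl)) ((f k).smul_mem _ (hw k))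

theorem charpoly_ext (g : GL (Fin 2) ℝ) :
    (extAct 1 g).charpoly = (g : Matrix (Fin 2) (Fin 2) ℝ).charpoly := by
  have h2 : oneE.conj (extAct 1 g) = Matrix.toLin' (g : Matrix (Fin 2) (Fin 2) ℝ) := by
    refine LinearMap.ext fun x => ?_
    rw [LinearEquiv.conj_apply_apply, ext_apply, LinearEquiv.apply_symm_apply,
      Matrix.toLin'_apply]
  rw [← LinearEquiv.charpoly_conj oneE, h2, Matrix.charpoly_toLin']

theorem proximal : Proximal μ₀ 1 := by
  refine ⟨b, mem_closedSemigroup b_mem, ?_⟩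
  set z : ℂ := (((3 + Real.sqrt 5) / 20 : ℝ) : ℂ) with hz
  set z' : ℂ := (((3 - Real.sqrt 5) / 20 : ℝ) : ℂ) with hz'
  have h5 : Real.sqrt 5 * Real.sqrt 5 = 5 := Real.mul_self_sqrt (by norm_num)
  have h5' : 0 < Real.sqrt 5 := Real.sqrt_pos.2 (by norm_num)
  have h53 : Real.sqrt 5 < 3 := by
    rw [Real.sqrt_lt' (by norm_num)]
    norm_num
  have hne : z ≠ z' := by
    rw [hz, hz']
    intro h
    have := Complex.ofReal_injective h
    linarith
  have hpoly : (extAct 1 b).charpoly.map (algebraMap ℝ ℂ) = (X - C z) * (X - C z') := by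
    rw [charpoly_ext, Matrix.charpoly_fin_two]
    have e1 : (b : Matrix (Fin 2) (Fin 2) ℝ).trace = 3 / 10 := by
      simp [b_val, bM, Matrix.trace, Fin.sum_univ_two]
      norm_num
    have e2 : (b : Matrix (Fin 2) (Fin 2) ℝ).det = 1 / 100 := by
      simp [b_val, bM, Matrix.det_fin_two]
      norm_num
    rw [e1, e2]
    have s1 : z + z' = ((3 / 10 : ℝ) : ℂ) := by
      rw [hz, hz', ← Complex.ofReal_add]
      congr 1
      ring
    have s2 : z * z' = ((1 / 100 : ℝ) : ℂ) := by
      rw [hz, hz', ← Complex.ofReal_mul]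
      congr 1
      have : (3 + Real.sqrt 5) / 20 * ((3 - Real.sqrt 5) / 20) =
          (9 - Real.sqrt 5 * Real.sqrt 5) / 400 := by ring
      rw [this, h5]
      norm_num
    have s3 : (X - C z) * (X - C z') = (X : ℂ[X]) ^ 2 - C (z + z') * X + C (z * z') := by
      rw [C_add, C_mul]
      ring
    rw [s3, s1, s2]
    simp only [Polynomial.map_add, Polynomial.map_sub, Polynomial.map_mul, Polynomial.map_pow,
      Polynomial.map_X, Polynomial.map_C]
    rfl
  have hnz : (X - C z) * (X - C z') ≠ 0 := mul_ne_zero (X_sub_C_ne_zero z) (X_sub_C_ne_zero z')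
  refine ⟨z, ?_, ?_⟩
  · rw [hpoly, rootMultiplicity_mul hnz, rootMultiplicity_X_sub_C_self,
      rootMultiplicity_X_sub_C, if_neg hne]
  · intro w hw hwz
    rw [hpoly, IsRoot.def, eval_mul, mul_eq_zero] at hw
    simp only [eval_sub, eval_X, eval_C, sub_eq_zero] at hw
    rcases hw with hw | hw
    · exact absurd hw hwz
    · rw [hw, hz, hz', Complex.norm_real, Complex.norm_real, Real.norm_of_nonneg (by linarith),
        Real.norm_of_nonneg (by linarith)]
      linarith

/-- **Negative answer.** There is a compactly supported probability measure `μ` on `GL(2, ℝ)`,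
fully strongly irreducible and fully proximal (for `d = 2` the only exponent is `i = 1`), whose
moment exponent `k` exists on the whole line and fails to be real-analytic at two points. -/
theorem result : ∃ (d : ℕ) (μ : Measure (GL (Fin d) ℝ)) (k : ℝ → ℝ),
    2 ≤ d ∧ IsProbabilityMeasure μ ∧ IsCompact μ.support ∧
    (∀ i : ℕ, 1 ≤ i → i ≤ d - 1 → StronglyIrreducible μ i ∧ Proximal μ i) ∧
    IsMomentExponent μ k ∧
    ∃ F : Finset ℝ, F.card = d ∧ ∀ t ∈ F, ¬ AnalyticAt ℝ k t := by
  obtain ⟨s, hs, hs'⟩ := exists_left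
  obtain ⟨t, ht, ht'⟩ := exists_right
  refine ⟨2, μ₀, kk, le_rfl, inferInstance, compact_support, ?_, kk_isMomentExponent, {s, t}, ?_, ?_⟩
  · intro i h1 h2
    obtain rfl : i = 1 := by omega
    exact ⟨strongly, proximal⟩
  · exact Finset.card_pair (by linarith [hs, ht] : s < t).ne
  · intro x hx
    simp only [Finset.mem_insert, Finset.mem_singleton] at hx
    rcases hx with rfl | rfl
    · exact hs'
    · exact ht'

end

end Pool.Agent.Results.MP_2489e7_pr.TwoSingularPoints
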